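import Mathlib
import Pool.Agent.Helper66.ER.Basic

/-!
B2: the integral of the test product.
-/

set_option autoImplicit false
open MeasureTheory Finset Filter

namespace Helper36.ERB

open Helper66.ER

theorem cont_T (m : ℤ) (r : ℕ) : Continuous (T m r) := by
  unfold T
  fun_prop

theorem cont_Q (D r : ℕ) : Continuous (Q D r) := by
  unfold Q
  have := fun m : ℤ => cont_T m r
  fun_prop

theorem cont_R (D r L k : ℕ) : Continuous (R D r L k) := by
  unfold R
  have := cont_Q D r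
  refine continuous_finsetProd _ fun i _ => this.comp (by fun_prop)

theorem R_succ (D r L k : ℕ) (x : Tor) :
    R D r L (k + 1) x = Q D r x * R D r L k ((2 ^ L : ℕ) • x) := by
  unfold R
  rw [Finset.prod_range_succ', mul_comm]
  congr 1
  · simp
  · refine Finset.prod_congr rfl fun i _ => ?_
    rw [smul_smul, ← pow_add]
    congr 3

theorem fourier_ne (n : ℤ) (N : ℕ) (hN : 0 < N) (h : ¬ ((N : ℤ) ∣ n)) :
    (fourier n (((1 / N : ℝ)) : Tor) : ℂ) ≠ 1 := by
  intro he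
  rw [fourier_coe_apply, Complex.exp_eq_one_iff] at he
  obtain ⟨q, hq⟩ := he
  apply h
  refine ⟨q, ?_⟩
  have hN' : (N : ℂ) ≠ 0 := by exact_mod_cast hN.ne'
  have h2 : (2 * (Real.pi : ℂ) * Complex.I) ≠ 0 := Complex.two_pi_I_ne_zero
  have h3 : (2 * (Real.pi : ℂ) * Complex.I) * ((n : ℂ) / N) =
      (2 * (Real.pi : ℂ) * Complex.I) * q := by
    rw [mul_comm (2 * (Real.pi : ℂ) * Complex.I) (q : ℂ), ← hq]
    push_cast
    field_simp
  have h4 := mul_left_cancel₀ h2 h3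
  rw [div_eq_iff hN'] at h4
  have h5 : (n : ℂ) = ((N * q : ℤ) : ℂ) := by
    rw [h4]
    push_cast
    ring
  exact_mod_cast h5

/-- the integrals of the frequencies which are not multiples of `N` vanish -/
theorem int_zero (n : ℤ) (N : ℕ) (hN : 0 < N) (h : ¬ ((N : ℤ) ∣ n)) (g : Tor → ℂ) :
    ∫ x : Tor, (fourier n x : ℂ) * g (N • x) = 0 := by
  set y : Tor := ((1 / N : ℝ) : Tor) with hy
  have hNy : N • y = 0 := by
    rw [hy, ← AddCircle.coe_nsmul, nsmul_eq_mul]
    have hN' : (N : ℝ) ≠ 0 := by exact_mod_cast hN.ne'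
    rw [mul_one_div_cancel hN']
    exact AddCircle.coe_period 1
  have h1 : ∫ x : Tor, (fourier n (x + y) : ℂ) * g (N • (x + y)) =
      ∫ x : Tor, (fourier n x : ℂ) * g (N • x) :=
    integral_add_right_eq_self (fun x : Tor => (fourier n x : ℂ) * g (N • x)) y
  have h2 : ∀ x : Tor, (fourier n (x + y) : ℂ) * g (N • (x + y)) =
      (fourier n y : ℂ) * ((fourier n x : ℂ) * g (N • x)) := by
    intro x
    rw [smul_add, hNy, add_zero]
    have : (fourier n (x + y) : ℂ) = (fourier n x : ℂ) * (fourier n y : ℂ) := by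
      rw [fourier_apply, fourier_apply, fourier_apply, smul_add, AddCircle.toCircle_add]
      exact Circle.coe_mul _ _
    rw [this]
    ring
  simp only [h2] at h1
  rw [integral_const_mul] at h1
  have h3 : ((fourier n y : ℂ) - 1) * ∫ x : Tor, (fourier n x : ℂ) * g (N • x) = 0 := by
    rw [sub_mul, h1, one_mul, sub_self]
  rcases mul_eq_zero.1 h3 with h4 | h4
  · exact absurd (sub_eq_zero.1 h4) (fourier_ne n N hN h)
  · exact h4

theorem val_three (j : ℕ) (hj : j ≠ 0) : padicValNat 2 (3 ^ j - 1) ≤ padicValNat 2 j + 2 := by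
  rcases Nat.even_or_odd j with he | ho
  · have h := padicValNat.pow_two_sub_pow (x := 3) (y := 1) (by norm_num) (by norm_num)
      (by norm_num) hj he
    have h4 : padicValNat 2 (3 + 1) = 2 := by
      rw [show 3 + 1 = 2 ^ 2 by norm_num, padicValNat.prime_pow]
    have h2 : padicValNat 2 (3 - 1) = 1 := by
      rw [show 3 - 1 = 2 ^ 1 by norm_num, padicValNat.prime_pow]
    rw [h4, h2, one_pow] at h
    omega
  · -- `3 ^ j - 1` is `2` modulo `4`
    obtain ⟨a, rfl⟩ := ho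
    have h1 : (3 ^ (2 * a + 1) : ℕ) % 4 = 3 := by
      rw [pow_succ, pow_mul, Nat.mul_mod, Nat.pow_mod]
      norm_num
    have h3 : ¬ (2 ^ 2 ∣ 3 ^ (2 * a + 1) - 1) := by
      intro hd
      generalize 3 ^ (2 * a + 1) = z at hd h1
      have h6 : (z - 1) % 4 = 0 := Nat.mod_eq_zero_of_dvd hd
      omega
    by_contra hc
    push Not at hc
    apply h3
    have h5 : 2 ^ 2 ∣ 2 ^ padicValNat 2 (3 ^ (2 * a + 1) - 1) := pow_dvd_pow 2 (by omega)
    exact h5.trans pow_padicValNat_dvd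

theorem not_dvd (D r u m b b' : ℕ) (hD : D ≤ 2 ^ u) (hm : 1 ≤ m) (hmD : m ≤ D) (hb : b < 2 ^ r)
    (hbb : b' < b) : ¬ (((2 ^ (r + 2 + u) : ℕ) : ℤ) ∣ (m : ℤ) * 3 ^ b - m * 3 ^ b') := by
  intro hd
  obtain ⟨j, rfl⟩ := Nat.exists_eq_add_of_lt hbb
  have e1 : (m : ℤ) * 3 ^ (b' + j + 1) - m * 3 ^ b' = 3 ^ b' * (m * (3 ^ (j + 1) - 1)) := by
    rw [add_assoc, pow_add]
    ring
  rw [e1] at hd
  have hcop : IsCoprime (((2 ^ (r + 2 + u) : ℕ) : ℤ)) ((3 : ℤ) ^ b') := by
    push_cast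
    apply IsCoprime.pow
    rw [Int.isCoprime_iff_gcd_eq_one]
    norm_num
  have hd2 := hcop.dvd_of_dvd_mul_left hd
  have hge : 1 ≤ 3 ^ (j + 1) := Nat.one_le_pow _ _ (by norm_num)
  have e2 : ((m : ℤ) * (3 ^ (j + 1) - 1)) = ((m * (3 ^ (j + 1) - 1) : ℕ) : ℤ) := by
    rw [Nat.cast_mul, Nat.cast_sub hge]
    push_cast
    ring
  rw [e2, Int.natCast_dvd_natCast] at hd2
  have h31 : 3 ^ (j + 1) - 1 ≠ 0 := by
    have : 3 ^ 1 ≤ 3 ^ (j + 1) := Nat.pow_le_pow_right (by norm_num) (by omega)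
    omega
  have hne : m * (3 ^ (j + 1) - 1) ≠ 0 := Nat.mul_ne_zero (by omega) h31
  have h1 := (padicValNat_dvd_iff_le hne).1 hd2
  rw [padicValNat.mul (by omega) h31] at h1
  have h2 := val_three (j + 1) (by omega)
  have h3 : padicValNat 2 m ≤ u := by
    have h4 : 2 ^ padicValNat 2 m ≤ m := Nat.le_of_dvd (by omega) pow_padicValNat_dvd
    exact (Nat.pow_le_pow_iff_right (by norm_num)).1 ((h4.trans hmD).trans hD)
  have h5 : padicValNat 2 (j + 1) < r := by
    have h4 : 2 ^ padicValNat 2 (j + 1) ≤ j + 1 := Nat.le_of_dvd (by omega) pow_padicValNat_dvd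
    exact (Nat.pow_lt_pow_iff_right (by norm_num)).1 (lt_of_le_of_lt h4 (by omega))
  omega

theorem not_dvd' (D r u m b b' : ℕ) (hD : D ≤ 2 ^ u) (hm : 1 ≤ m) (hmD : m ≤ D)
    (hb : b < 2 ^ r) (hb' : b' < 2 ^ r) (hbb : b ≠ b') :
    ¬ (((2 ^ (r + 2 + u) : ℕ) : ℤ) ∣ (m : ℤ) * 3 ^ b - m * 3 ^ b') := by
  rcases Nat.lt_or_gt_of_ne hbb with h | h
  · intro hd
    apply not_dvd D r u m b' b hD hm hmD hb' h
    rw [← neg_sub]
    exact (dvd_neg).2 hd
  · exact not_dvd D r u m b b' hD hm hmD hb h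

theorem normsq_T (m : ℤ) (r : ℕ) (x : Tor) : ((‖T m r x‖ ^ 2 : ℝ) : ℂ) =
    (1 / 4 ^ r) * ∑ b ∈ range (2 ^ r), ∑ b' ∈ range (2 ^ r),
      (fourier (m * 3 ^ b - m * 3 ^ b') x : ℂ) := by
  have h1 : ((‖T m r x‖ ^ 2 : ℝ) : ℂ) = T m r x * (starRingEnd ℂ) (T m r x) := by
    rw [Complex.mul_conj, Complex.normSq_eq_norm_sq]
  rw [h1]
  unfold T
  rw [map_div₀, map_sum, div_mul_div_comm, Finset.sum_mul_sum, map_pow]
  have h2 : (starRingEnd ℂ) (2 : ℂ) = 2 := Complex.conj_ofNat 2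
  rw [h2, ← mul_pow, div_eq_mul_inv, mul_comm, one_div, show (2 : ℂ) * 2 = 4 by norm_num]
  congr 1
  refine Finset.sum_congr rfl fun b _ => Finset.sum_congr rfl fun b' _ => ?_
  rw [← fourier_neg, sub_eq_add_neg, fourier_add]

theorem int_normsq (D r u m : ℕ) (hD : D ≤ 2 ^ u) (hm : 1 ≤ m) (hmD : m ≤ D) (g : Tor → ℂ)
    (hg : Continuous g) :
    ∫ x : Tor, ((‖T (m : ℤ) r x‖ ^ 2 : ℝ) : ℂ) * g ((2 ^ (r + 2 + u) : ℕ) • x) =
      (1 / 2 ^ r) * ∫ x : Tor, g ((2 ^ (r + 2 + u) : ℕ) • x) := by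
  have hint : ∀ f : Tor → ℂ, Continuous f → Integrable f := fun f hf =>
    hf.integrable_of_hasCompactSupport (HasCompactSupport.of_compactSpace _)
  have e : ∀ x : Tor, ((‖T (m : ℤ) r x‖ ^ 2 : ℝ) : ℂ) * g ((2 ^ (r + 2 + u) : ℕ) • x) =
      (1 / 4 ^ r) * ∑ b ∈ range (2 ^ r), ∑ b' ∈ range (2 ^ r),
        (fourier ((m : ℤ) * 3 ^ b - m * 3 ^ b') x : ℂ) * g ((2 ^ (r + 2 + u) : ℕ) • x) := by
    intro x
    rw [normsq_T, mul_assoc, Finset.sum_mul]
    congr 1
    refine Finset.sum_congr rfl fun b _ => ?_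
    rw [Finset.sum_mul]
  simp only [e]
  rw [integral_const_mul, integral_finsetSum]
  · have e2 : ∀ b ∈ range (2 ^ r), ∫ x : Tor, ∑ b' ∈ range (2 ^ r),
        (fourier ((m : ℤ) * 3 ^ b - m * 3 ^ b') x : ℂ) * g ((2 ^ (r + 2 + u) : ℕ) • x) =
        ∫ x : Tor, g ((2 ^ (r + 2 + u) : ℕ) • x) := by
      intro b hb
      rw [integral_finsetSum, Finset.sum_eq_single b]
      · refine integral_congr_ae (Eventually.of_forall fun x => ?_)
        simp
      · intro b' hb' hne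
        exact int_zero _ _ (by positivity) (not_dvd' D r u m b b' hD hm hmD
          (Finset.mem_range.1 hb) (Finset.mem_range.1 hb') hne.symm) g
      · intro hn
        exact absurd hb hn
      · intro b' _
        exact hint _ (by fun_prop)
    rw [Finset.sum_congr rfl e2, Finset.sum_const, Finset.card_range, nsmul_eq_mul, ← mul_assoc]
    congr 1
    push_cast
    rw [show (4 : ℂ) = 2 * 2 by norm_num, mul_pow]
    field_simp
  · intro b _
    exact hint _ (by fun_prop)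

theorem int_pow (L : ℕ) (hL : 1 ≤ L) (g : Tor → ℂ) (hg : Continuous g) :
    ∫ x : Tor, g ((2 ^ L : ℕ) • x) = ∫ x : Tor, g x := by
  have hp : MeasurePreserving (fun x : Tor => (2 ^ L : ℕ) • x) volume volume :=
    (AddCircle.ergodic_nsmul (T := 1) (n := 2 ^ L)
      (Nat.one_lt_pow (by omega) (by norm_num))).toMeasurePreserving
  have h1 := integral_map (μ := volume) hp.measurable.aemeasurable
    (f := g) hg.aestronglyMeasurable
  rw [hp.map_eq] at h1
  exact h1.symm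

theorem integral_R (D r u k : ℕ) (hD : D ≤ 2 ^ u) :
    ∫ x, R D r (r + 2 + u) k x = (((D : ℝ) + 1) / 2 ^ r) ^ k := by
  have hint : ∀ f : Tor → ℂ, Continuous f → Integrable f := fun f hf =>
    hf.integrable_of_hasCompactSupport (HasCompactSupport.of_compactSpace _)
  induction k with
  | zero =>
    have : ∀ x : Tor, R D r (r + 2 + u) 0 x = 1 := fun x => by unfold R; simp
    simp only [this, pow_zero]
    rw [integral_const, Measure.real, AddCircle.measure_univ]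
    simp
  | succ k ih =>
    have hR := cont_R D r (r + 2 + u) k
    have hT := fun m : ℤ => cont_T m r
    apply Complex.ofReal_injective
    rw [← integral_complex_ofReal]
    have e : ∀ x : Tor, ((R D r (r + 2 + u) (k + 1) x : ℝ) : ℂ) =
        (1 / 2 ^ r) * ((R D r (r + 2 + u) k ((2 ^ (r + 2 + u) : ℕ) • x) : ℝ) : ℂ) +
        ∑ m ∈ Icc 1 D, ((‖T (m : ℤ) r x‖ ^ 2 : ℝ) : ℂ) *
          ((R D r (r + 2 + u) k ((2 ^ (r + 2 + u) : ℕ) • x) : ℝ) : ℂ) := by
      intro x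
      rw [R_succ]
      unfold Q
      rw [Complex.ofReal_mul, Complex.ofReal_add, Complex.ofReal_sum, add_mul, Finset.sum_mul]
      congr 2
      push_cast
      rfl
    simp only [e]
    have hg : Continuous fun x : Tor => ((R D r (r + 2 + u) k x : ℝ) : ℂ) := by fun_prop
    rw [integral_add, integral_const_mul, integral_finsetSum]
    · have e2 : ∀ m ∈ Icc 1 D, ∫ x : Tor, ((‖T (m : ℤ) r x‖ ^ 2 : ℝ) : ℂ) *
          ((R D r (r + 2 + u) k ((2 ^ (r + 2 + u) : ℕ) • x) : ℝ) : ℂ) =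
          (1 / 2 ^ r) * ∫ x : Tor, ((R D r (r + 2 + u) k ((2 ^ (r + 2 + u) : ℕ) • x) : ℝ) : ℂ) := by
        intro m hm
        rw [Finset.mem_Icc] at hm
        exact int_normsq D r u m hD hm.1 hm.2 _ hg
      rw [Finset.sum_congr rfl e2, Finset.sum_const, Nat.card_Icc,
        int_pow (r + 2 + u) (by omega) _ hg, integral_complex_ofReal, ih]
      push_cast
      rw [nsmul_eq_mul, pow_succ]
      ring
    · intro m _
      exact hint _ (by fun_prop)
    · exact hint _ (by fun_prop)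
    · exact hint _ (by fun_prop)

end Helper36.ERB
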